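import Pool.Agent.helper62.VN.SpecG
import Pool.Agent.helper62.VQE.IUA

set_option autoImplicit false

open scoped MatrixGroups ContDiff Topology UpperHalfPlane
open UpperHalfPlane MeasureTheory Filter Set

namespace Pool.Agent.VNE

open Pool.Agent.RS Pool.Agent.VQE
open Pool.Agent.VQ (Dyn rho kap n1 n2 hess Ug TF)
open Pool.Agent.VN (PotN OKN Kg)

theorem IUN_proof (h1 : GHF_stmt) (h2 : GFL_stmt) (h3 : NMR_stmt) (h4 : NUW_stmt) (h5 : NCL_stmt) (h6 : GUC_stmt)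
    (h7 : GCP_stmt) (h8 : VQE.HLI_stmt) : IUN_stmt := by
  intro Γ F k B D h e v0 C1 hΓ hF hD hh he hv0 hC1
  have hk : 0 < k := hD.pot.kpos.1
  obtain ⟨K, hK1, hHF⟩ := h1 k hk
  obtain ⟨hFlG, _⟩ := h2 Γ k B D hΓ hD
  have hX := hHF Γ B D hΓ hD
  obtain ⟨L, hL0, hTf, hmean⟩ := IUA_tf h8 hΓ hF hh
  have hM := h3 K Γ F L (XD D) _ hK1 hΓ hF hL0 hX hFlG hTf
  obtain ⟨T1, hT1p, hT1⟩ := h4 K Γ F L (XD D) _ hK1 hΓ hF hL0 hX hFlG hTf hM (e / 2) v0 (10 * C1) (by positivity) hv0 (by linarith)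
  have hT0 : (1 : ℕ) ≤ max 1 ⌈T1⌉₊ := le_max_left _ _
  set T0 : ℕ := max 1 ⌈T1⌉₊ with hT0d
  have hT0r : (1 : ℝ) ≤ (T0 : ℝ) := by exact_mod_cast hT0
  have hT1T0 : T1 ≤ (T0 : ℝ) := (Nat.le_ceil T1).trans (by exact_mod_cast le_max_right 1 ⌈T1⌉₊)
  obtain ⟨ε, hε, hC⟩ := h5 K L (T0 : ℝ) (e / 2) hK1 hL0 (by linarith) (by positivity)
  obtain ⟨s0, hs0, hs0k, hU⟩ := h6 k C1 hk hC1
  obtain ⟨C, hC1', hCP⟩ := h7 k hk
  have hs : 0 < min s0 (ε / C) := lt_min hs0 (by positivity)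
  refine ⟨T0, min s0 (ε / C), min s0 (ε / C), hT0, hs, hs, ?_⟩
  intro D' hD' hcl E γ hE hUC
  obtain ⟨_, hFl'⟩ := h2 Γ k B D' hΓ hD'
  have hsk : min s0 (ε / C) ≤ k := (min_le_left _ _).trans hs0k
  have hEk : |E| ≤ k := hE.trans hsk
  have hP := hCP Γ B D.U D'.U (min s0 (ε / C)) E hD.pot hD'.pot hs.le hsk hE hcl
  have hCs : C * min s0 (ε / C) ≤ ε := by
    calc C * min s0 (ε / C) ≤ C * (ε / C) := mul_le_mul_of_nonneg_left (min_le_right _ _) (by linarith)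
      _ = ε := by field_simp
  have hUX : UCX (10 * C1) (XD D) γ := hU Γ B D D' E γ hD hD' (hE.trans (min_le_left _ _))
    (fun g n hn => (hcl g n hn).trans (min_le_left _ _)) hUC
  have hav := hC Γ (XD D) (VQ.rho D'.U E) (fun g => -(VQ.kap D'.U E g) / 2) (D'.fl E) (fun g => h (g • I)) hX (hFl' E hEk)
    (fun g => by
      obtain ⟨_, _, _, _, _, _, _, _, a1, _, _⟩ := hP g
      exact a1.trans hCs)
    (fun g => by
      obtain ⟨_, _, _, _, _, _, _, _, _, a2, _⟩ := hP g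
      have h9 : |-(VQ.kap D'.U E g) / 2 - -(VQ.kap D.U 0 g) / 2| = |VQ.kap D'.U E g - VQ.kap D.U 0 g| / 2 := by
        rw [show -(VQ.kap D'.U E g) / 2 - -(VQ.kap D.U 0 g) / 2 = -((VQ.kap D'.U E g - VQ.kap D.U 0 g) / 2) by ring, abs_neg, abs_div,
          abs_of_pos (show (0 : ℝ) < 2 by norm_num)]
      show |-(VQ.kap D'.U E g) / 2 - -(VQ.kap D.U 0 g) / 2| ≤ ε
      rw [h9]
      have h10 := abs_nonneg (VQ.kap D'.U E g - VQ.kap D.U 0 g)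
      linarith) hTf
  refine le_trans (measure_mono ?_) (hT1 (T0 : ℝ) hT1T0 γ hUX)
  rintro v ⟨hv, hev⟩
  refine ⟨hv, ?_⟩
  have h8 := hav (γ v)
  have h9 : avf (D'.fl E) (fun g => h (g • I)) (T0 : ℝ) (γ v) = VQ.avP D' h (T0 : ℝ) (γ v, E) := rfl
  rw [h9] at h8
  rw [hmean]
  have h10 : |VQ.avP D' h (T0 : ℝ) (γ v, E) - RPQ.mean F h| ≤
      |VQ.avP D' h (T0 : ℝ) (γ v, E) - avf (XD D).f (fun g => h (g • I)) (T0 : ℝ) (γ v)| +
      |avf (XD D).f (fun g => h (g • I)) (T0 : ℝ) (γ v) - RPQ.mean F h| := abs_sub_le _ _ _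
  linarith

end Pool.Agent.VNE
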