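import Pool.Agent.helper62.VQE.All1
import Pool.Agent.helper18.VNE.NCH
import Pool.Agent.helper71.VNE.NGR
import Pool.Agent.helper43.VNE.NSM
import Pool.Agent.helper53.VNE.NSD
import Pool.Agent.helper26.VNE.NDC
import Pool.Agent.helper7.VNE.NWR
import Pool.Agent.helper34.VNE.NWZ
import Pool.Agent.helper44.VNE.NPL
import Pool.Agent.helper69.VNE.NGC
import Pool.Agent.helper7.VNE.NES
import Pool.Agent.helper7.VNE.NST
import Pool.Agent.helper87.VNE.NSY
import Pool.Agent.helper54.VNE.NLA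
import Pool.Agent.helper21.VNE.NLT
import Pool.Agent.helper53.VNE.NDM
import Pool.Agent.helper39.VNE.NTP
import Pool.Agent.helper20.VNE.NAV
import Pool.Agent.helper23.VNE.NRV
import Pool.Agent.helper63.VNE.NAL
import Pool.Agent.helper2.VNE.NLC
import Pool.Agent.helper5.VNE.NLS
import Pool.Agent.helper23.VNE.NHO
import Pool.Agent.helper27.VNE.NHC
import Pool.Agent.helper76.VNE.NMR
import Pool.Agent.helper6.VNE.NCU
import Pool.Agent.helper96.VNE.NUW
import Pool.Agent.helper76.VNE.NCL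
import Pool.Agent.helper53.VNE.GSQ
import Pool.Agent.helper17.VNE.GN1
import Pool.Agent.helper34.VNE.GQC
import Pool.Agent.helper33.VNE.GDV
import Pool.Agent.helper71.VNE.GLP
import Pool.Agent.helper21.VNE.GTL
import Pool.Agent.helper83.VNE.GPH
import Pool.Agent.helper26.VNE.GO2
import Pool.Agent.helper43.VNE.GF1
import Pool.Agent.helper51.VNE.GLH
import Pool.Agent.helper59.VNE.GF2
import Pool.Agent.helper69.VNE.GFL
import Pool.Agent.helper9.VNE.GTD
import Pool.Agent.helper58.VNE.GHF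
import Pool.Agent.helper63.VNE.GCP
import Pool.Agent.helper66.VNE.GUC
import Pool.Agent.helper62.VNE.IUN

/-!
# Project VN, block 5: assembly. Negatively curved flows are hyperbolic (`GHF`), ergodic (`NMR`), and satisfy the uniform weak law (`IUWN`).
-/

set_option autoImplicit false

namespace Pool.Agent.VNE

open Pool.Agent.VQE (A_NMB A_NUL A_NUI A_NUA A_REV A_VNE A_HLI)

theorem A_NCH : NCH_stmt := NCH_proof A_NMB
theorem A_NGR : NGR_stmt := NGR_proof A_NMB
theorem A_NSM : NSM_stmt := NSM_proof A_NMB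
theorem A_NSD : NSD_stmt := NSD_proof A_NMB A_NGR
theorem A_NWR : NWR_stmt := NWR_proof NDC_proof
theorem A_NWZ : NWZ_stmt := NWZ_proof NDC_proof
theorem A_NPL : NPL_stmt := NPL_proof A_NCH
theorem A_NGC : NGC_stmt := NGC_proof A_NCH VQE.GLO_proof
theorem A_NES : NES_stmt := NES_proof A_NCH A_NGC NDC_proof
theorem A_NST : NST_stmt := NST_proof A_NPL NDC_proof A_NWZ
theorem A_NSY : NSY_stmt := NSY_proof A_NMB A_NCH
theorem A_NLA : NLA_stmt := NLA_proof A_NCH A_NPL NDC_proof A_NWR A_NST A_NSY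
theorem A_NLT : NLT_stmt := NLT_proof A_NLA A_NGC NDC_proof
theorem A_NDM : NDM_stmt := NDM_proof A_NMB A_NCH A_NSM A_NSD
theorem A_NTP : NTP_stmt := NTP_proof A_NMB A_NCH A_NES A_NST A_NLT A_NDM A_NPL
theorem A_NAV : NAV_stmt := NAV_proof A_NMB A_NCH A_NST A_NSY
theorem A_NRV : NRV_stmt := NRV_proof A_NMB A_REV
theorem A_NAL : NAL_stmt := NAL_proof A_NMB A_NCH A_NTP A_NRV
theorem A_NLC : NLC_stmt := NLC_proof A_NMB A_NCH A_NSM A_NTP A_NRV
theorem A_NLS : NLS_stmt := NLS_proof A_NMB A_NCH A_NTP A_NRV A_NLC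
theorem A_NHO : NHO_stmt := NHO_proof A_NMB A_NUL A_NUI A_NTP A_NAV A_NRV A_NAL A_NLC A_NLS
theorem A_NHC : NHC_stmt := NHC_proof A_NMB
theorem A_NMR : NMR_stmt := NMR_proof A_VNE A_NHO A_NHC VQE.RDM_proof
theorem A_NCU : NCU_stmt := NCU_proof A_NMB A_NCH A_NSM A_NSD A_NTP
theorem A_NUW : NUW_stmt := NUW_proof A_NMB A_NTP A_NAV A_NUA VQE.FDK_proof A_NCU
theorem A_NCL : NCL_stmt := NCL_proof A_NMB
theorem A_GQC : GQC_stmt := GQC_proof VQE.PZE_proof VQE.PZC_proof VQE.PCA_proof GSQ_proof GN1_proof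
theorem A_GDV : GDV_stmt := GDV_proof VQ.F_VDG
theorem A_GLP : GLP_stmt := GLP_proof A_NMB A_GQC A_GDV
theorem A_GTL : GTL_stmt := GTL_proof A_NMB A_GQC A_GDV VQE.PSD_proof A_GLP GO2_proof
theorem A_GPH : GPH_stmt := GPH_proof A_GLP A_GTL
theorem A_GF1 : GF1_stmt := GF1_proof GO2_proof
theorem A_GLH : GLH_stmt := GLH_proof A_NMB
theorem A_GF2 : GF2_stmt := GF2_proof A_GLH
theorem A_GFL : GFL_stmt := GFL_proof VN.F_FLBN VN.F_NHM
theorem A_GTD : GTD_stmt := GTD_proof VQ.F_VDG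
theorem A_GHF : GHF_stmt := GHF_proof A_GPH A_GF1 A_GF2 A_GFL A_GTD
theorem A_GCP : GCP_stmt := GCP_proof A_GLP
theorem A_GUC : GUC_stmt := GUC_proof A_GCP

/-- the uniform weak law for negatively curved surfaces -/
theorem IUWN_all : VN.IUWN_stmt := IUN_proof A_GHF A_GFL A_NMR A_NUW A_NCL A_GUC A_GCP A_HLI

end Pool.Agent.VNE
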